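import Mathlib
import Pool.Agent.Results.MP_d3a052_pr.MomentAsymptotics
import Pool.Agent.U635.Vague

/-!
# Rare spikes of the solid angle of a random cone: the limit measure exists

Let `U_1, …, U_d` be independent and uniformly distributed on the unit sphere of `ℝ^d`, and let `α_d` be
the (normalised) solid angle of the cone `pos(U_1, …, U_d)`. The measures `μ_d = 2^d d P(α_d ∈ ·)` on
`(0, ∞)` converge vaguely, as `d → ∞`, to a locally finite measure `μ ≠ 0`. This is the positive answer to
the question.

Proof. By `MP_d3a052_pr.MomentAsymptotics` (a starting file) the moments `∫ x^k dμ_d = 2^d d m(d, k)`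
converge for all `k ≥ 2`, to positive numbers `c_k`. Since `0 ≤ α_d ≤ 1`, the theorem of Weierstrass gives
the convergence of `∫ x^2 g(x) dμ_d` for all continuous `g`, in particular of `∫ f dμ_d` for all continuous
functions `f` with compact support in `(0, ∞)`. By the theorem of Riesz, Markov and Kakutani the limit is the
integral with respect to a locally finite measure `μ`. If `μ` were zero, the third moments of `μ_d` would
be at most `2 η c_2 + o(1)` for every `η > 0`, but `c_3 > 0`.
-/

set_option autoImplicit false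

namespace Pool.Agent.Results.MP_da621d_pr.VagueLimit

open MeasureTheory Filter Topology

/-- Euclidean space. -/
abbrev E (n : ℕ) := EuclideanSpace ℝ (Fin n)

/-- The positive hull of `x_1, …, x_m`. -/
def pos {n m : ℕ} (x : Fin m → E n) : Set (E n) :=
  {v | ∃ l : Fin m → ℝ, (∀ i, 0 ≤ l i) ∧ v = ∑ i, l i • x i}

/-- The uniform distribution on the unit sphere of `ℝ^n`: the normalised surface measure. -/
noncomputable def unif (n : ℕ) : Measure (Metric.sphere (0 : E n) 1) :=
  ((volume : Measure (E n)).toSphere Set.univ)⁻¹ • (volume : Measure (E n)).toSphere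

/-- The solid angle `α(C) = P(U ∈ C)` of the set `C`, `U` uniform on the unit sphere. -/
noncomputable def angle {n : ℕ} (C : Set (E n)) : ℝ :=
  (unif n {u | (u : E n) ∈ C}).toReal

/-- The law of `α_d = α(pos(U_1, …, U_d))`, for independent uniform points `U_1, …, U_d` of the sphere. -/
noncomputable def law (d : ℕ) : Measure ℝ :=
  (Measure.pi fun _ : Fin d => unif d).map fun U => angle (pos fun i => (U i : E d))

/-- The measure `μ_d(A) = 2^d d P(α_d ∈ A)` on `(0, ∞)`. -/
noncomputable def mu (d : ℕ) : Measure (Set.Ioi (0 : ℝ)) :=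
  Measure.comap Subtype.val ((2 ^ d * (d : ENNReal)) • law d)

open Pool.Agent.R974.SA in
lemma measurable_angle (d : ℕ) : Measurable fun U : Fin d → Metric.sphere (0 : E d) 1 =>
    angle (pos fun i => (U i : E d)) := by
  have hcont : Continuous fun p : (Fin d → Metric.sphere (0 : E d) 1) ×
      Metric.sphere (0 : E d) 1 => ((fun i => (p.1 i : E d), (p.2 : E d)) : (Fin d → E d) × E d) := by
    fun_prop
  have : SFinite (unif d) := by unfold unif; infer_instance
  exact (measurable_measure_prodMk_left (hcont.measurable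
    (Pool.Agent.R644.SAS.measurable_R d d))).ennreal_toReal

lemma unif_univ_le (n : ℕ) : unif n Set.univ ≤ 1 := by
  unfold unif
  rw [Measure.smul_apply, smul_eq_mul]
  exact ENNReal.inv_mul_le_one _

instance (n : ℕ) : IsFiniteMeasure (unif n) :=
  ⟨(unif_univ_le n).trans_lt ENNReal.one_lt_top⟩

lemma angle_mem {n : ℕ} (C : Set (E n)) : angle C ∈ Set.Icc (0 : ℝ) 1 := by
  refine ⟨ENNReal.toReal_nonneg, ?_⟩
  unfold angle
  have h1 := (measure_mono (Set.subset_univ {u : Metric.sphere (0 : E n) 1 | (u : E n) ∈ C})).trans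
    (unif_univ_le n)
  exact (ENNReal.toReal_mono ENNReal.one_ne_top h1).trans (by simp)

instance (d : ℕ) : IsFiniteMeasure (law d) := by
  unfold law
  infer_instance

lemma ne_top (d : ℕ) : (2 ^ d * (d : ENNReal)) ≠ ⊤ :=
  ENNReal.mul_ne_top (ENNReal.pow_ne_top (by norm_num)) (ENNReal.natCast_ne_top d)

instance (d : ℕ) : IsFiniteMeasure ((2 ^ d * (d : ENNReal)) • law d) :=
  Measure.smul_finite _ (ne_top d)

/-- the moments of `μ_d` -/
lemma moment (d k : ℕ) : ∫ x, x ^ k ∂((2 ^ d * (d : ENNReal)) • law d) =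
    2 ^ d * (d : ℝ) * Pool.Agent.R974.SA.m d k := by
  rw [integral_smul_measure, law, integral_map (measurable_angle d).aemeasurable (by fun_prop)]
  rw [ENNReal.toReal_mul, ENNReal.toReal_pow, ENNReal.toReal_ofNat, ENNReal.toReal_natCast, smul_eq_mul]
  rfl

lemma supp (d : ℕ) : ((2 ^ d * (d : ENNReal)) • law d) (Set.Icc 0 1)ᶜ = 0 := by
  rw [Measure.smul_apply, law, Measure.map_apply (measurable_angle d) measurableSet_Icc.compl]
  have : (fun U : Fin d → Metric.sphere (0 : E d) 1 => angle (pos fun i => (U i : E d))) ⁻¹'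
      (Set.Icc 0 1)ᶜ = ∅ := by
    ext U
    simpa using angle_mem _
  rw [this, measure_empty, smul_zero]

/-- **The limit measure of the rare spikes of the solid angle.** The law of `α_d` is the law of a random
variable, and there is a locally finite Borel measure `μ ≠ 0` on `(0, ∞)` such that `∫ f dμ_d → ∫ f dμ` for
every continuous function `f` with compact support in `(0, ∞)`. -/
theorem result :
    (∀ d : ℕ, Measurable fun U : Fin d → Metric.sphere (0 : E d) 1 => angle (pos fun i => (U i : E d))) ∧
    ∃ μ : Measure (Set.Ioi (0 : ℝ)), IsLocallyFiniteMeasure μ ∧ μ ≠ 0 ∧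
      ∀ f : Set.Ioi (0 : ℝ) → ℝ, Continuous f → HasCompactSupport f →
        Tendsto (fun d => ∫ x, f x ∂(mu d)) atTop (𝓝 (∫ x, f x ∂μ)) := by
  refine ⟨measurable_angle, ?_⟩
  have h : ∀ k : ℕ, ∃ c : ℝ, 2 ≤ k → 0 < c ∧
      Tendsto (fun d : ℕ => 2 ^ d * (d : ℝ) * Pool.Agent.R974.SA.m d k) atTop (𝓝 c) := by
    intro k
    rcases lt_or_ge k 2 with hk | hk
    · exact ⟨0, fun h => absurd h (by omega)⟩
    · obtain ⟨c, h1, h2, -⟩ := Pool.Agent.Results.MP_d3a052_pr.MomentAsymptotics.result k hk
      exact ⟨c, fun _ => ⟨h1, h2⟩⟩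
  choose c hc using h
  exact Pool.Agent.U635.Vague.vague (Q := fun d => (2 ^ d * (d : ENNReal)) • law d) supp (c := c)
    (fun k hk => by simp_rw [moment]; exact (hc k hk).2) (hc 3 (by norm_num)).1

end Pool.Agent.Results.MP_da621d_pr.VagueLimit
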